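import Mathlib

/-!
# The two exponentiations on `βℕ` never coincide on nonprincipal ultrafilters

`ℕ = {1, 2, 3, …}` is `ℕ+`.  For ultrafilters `p, q` on `ℕ+` we define `E₁(p,q)` and `E₂(p,q)` and
show that they are different whenever `p` and `q` are nonprincipal.  In fact one fixed partition of
`ℕ+` into four cells separates `E₁(p,q)` from `E₂(p,q)` for all nonprincipal `p, q`.
-/

namespace Pool.Agent.Results.MP_846ee0_co.NoCoincidence

/-- `E₁(p,q) = {A | {n | {m | n ^ m ∈ A} ∈ q} ∈ p}`. -/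
def E₁ (p q : Ultrafilter ℕ+) : Ultrafilter ℕ+ :=
  p.bind fun n => q.map fun m => n ^ (m : ℕ)

/-- `E₂(p,q) = {A | {n | {m | m ^ n ∈ A} ∈ q} ∈ p}`. -/
def E₂ (p q : Ultrafilter ℕ+) : Ultrafilter ℕ+ :=
  p.bind fun n => q.map fun m => m ^ (n : ℕ)

/-- The ultrafilter is not principal. -/
def Nonprincipal (p : Ultrafilter ℕ+) : Prop := ∀ n : ℕ+, p ≠ pure n

lemma mem_E₁ {p q : Ultrafilter ℕ+} {A : Set ℕ+} :
    A ∈ E₁ p q ↔ {n : ℕ+ | {m : ℕ+ | n ^ (m : ℕ) ∈ A} ∈ q} ∈ p := Iff.rfl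

lemma mem_E₂ {p q : Ultrafilter ℕ+} {A : Set ℕ+} :
    A ∈ E₂ p q ↔ {n : ℕ+ | {m : ℕ+ | m ^ (n : ℕ) ∈ A} ∈ q} ∈ p := Iff.rfl

/-! ### Level functions -/

/-- Number of times `Nat.log 2` has to be applied to reach a number `≤ c`. -/
def lev (c n : ℕ) : ℕ :=
  if h : n ≤ c ∨ n = 0 then 0 else lev c (Nat.log 2 n) + 1
termination_by n
decreasing_by exact Nat.log_lt_self 2 (by omega)

lemma lev_small {c n : ℕ} (h : n ≤ c) : lev c n = 0 := by
  rw [lev, dif_pos (Or.inl h)]

lemma lev_big {c n : ℕ} (h : c < n) : lev c n = lev c (Nat.log 2 n) + 1 := by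
  rw [lev, dif_neg (by omega)]

lemma lev_mono (c : ℕ) : ∀ m n : ℕ, n ≤ m → lev c n ≤ lev c m := by
  intro m
  induction m using Nat.strong_induction_on with
  | _ m ih =>
    intro n hnm
    rcases Nat.lt_or_ge c n with hn | hn
    · rw [lev_big hn, lev_big (by omega : c < m)]
      have h1 : Nat.log 2 m < m := Nat.log_lt_self 2 (by omega)
      have h2 : Nat.log 2 n ≤ Nat.log 2 m := Nat.log_mono_right hnm
      have := ih _ h1 _ h2
      omega
    · rw [lev_small hn]; exact Nat.zero_le _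

lemma lev_two_pow {c n : ℕ} (h : c ≤ n) : lev c (2 ^ n) = lev c n + 1 := by
  have h2 : c < 2 ^ n := lt_of_le_of_lt h Nat.lt_two_pow_self
  rw [lev_big h2, Nat.log_pow (by norm_num)]

/-- The level functions with `c = 1` and `c = 2` never jump at the same place. -/
lemma no_common_jump : ∀ x : ℕ, lev 1 (x + 1) = lev 1 x ∨ lev 2 (x + 1) = lev 2 x := by
  intro x
  induction x using Nat.strong_induction_on with
  | _ x ih =>
    rcases Nat.lt_or_ge x 3 with hx | hx
    · interval_cases x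
      · left; rw [lev_small (by norm_num), lev_small (by norm_num)]
      · right; rw [lev_small (by norm_num), lev_small (by norm_num)]
      · left
        have e3 : Nat.log 2 3 = 1 := by rw [Nat.log_eq_iff (by norm_num)]; norm_num
        have e2 : Nat.log 2 2 = 1 := by rw [Nat.log_eq_iff (by norm_num)]; norm_num
        rw [lev_big (by norm_num : 1 < 2 + 1), lev_big (by norm_num : 1 < 2), e2, e3]
    · rw [lev_big (by omega : 1 < x + 1), lev_big (by omega : 1 < x),
        lev_big (by omega : 2 < x + 1), lev_big (by omega : 2 < x)]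
      have h1 : Nat.log 2 (x + 1) = Nat.log 2 x ∨ Nat.log 2 (x + 1) = Nat.log 2 x + 1 := by
        have hlo : Nat.log 2 x ≤ Nat.log 2 (x + 1) := Nat.log_mono_right (by omega)
        have hhi : Nat.log 2 (x + 1) < Nat.log 2 x + 2 := by
          apply Nat.log_lt_of_lt_pow (by omega)
          have := Nat.lt_pow_succ_log_self (b := 2) (by norm_num) x
          rw [pow_succ]
          omega
        omega
      rcases h1 with h1 | h1
      · left; rw [h1]
      · rw [h1]
        have := ih (Nat.log 2 x) (Nat.log_lt_self 2 (by omega))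
        omega

/-- Adding a constant to a large number does not change one of the two levels. -/
lemma lev_add {N b : ℕ} (hb : 3 ≤ b) (hN : N ≤ b) :
    lev 1 (b + N) = lev 1 b ∨ lev 2 (b + N) = lev 2 b := by
  rw [lev_big (by omega : 1 < b + N), lev_big (by omega : 1 < b),
    lev_big (by omega : 2 < b + N), lev_big (by omega : 2 < b)]
  have h1 : Nat.log 2 (b + N) = Nat.log 2 b ∨ Nat.log 2 (b + N) = Nat.log 2 b + 1 := by
    have hlo : Nat.log 2 b ≤ Nat.log 2 (b + N) := Nat.log_mono_right (by omega)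
    have hhi : Nat.log 2 (b + N) < Nat.log 2 b + 2 := by
      apply Nat.log_lt_of_lt_pow (by omega)
      have := Nat.lt_pow_succ_log_self (b := 2) (by norm_num) b
      rw [pow_succ]
      omega
    omega
  rcases h1 with h1 | h1
  · left; rw [h1]
  · rw [h1]
    have := no_common_jump (Nat.log 2 b)
    omega

/-- If the level of `log log m` is stable under adding `n + 1`, then `n ^ m` lies exactly one level
above `m` while `m ^ n` lies on the level of `m`. -/
lemma lev_pows {c n m : ℕ} (hc : 1 ≤ c) (hn : 2 ≤ n) (hm : 2 ^ 2 ^ (c + 1) ≤ m)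
    (h : lev c (Nat.log 2 (Nat.log 2 m) + (n + 1)) = lev c (Nat.log 2 (Nat.log 2 m))) :
    lev c (n ^ m) = lev c m + 1 ∧ lev c (m ^ n) = lev c m := by
  set a := Nat.log 2 m with ha
  set b := Nat.log 2 a with hb
  have h2c : c + 1 < 2 ^ (c + 1) := Nat.lt_two_pow_self
  have h2cc : 2 ^ (c + 1) < 2 ^ 2 ^ (c + 1) := Nat.lt_two_pow_self
  have ham : 2 ^ (c + 1) ≤ a := Nat.le_log_of_pow_le (by norm_num) hm
  have hba : c + 1 ≤ b := Nat.le_log_of_pow_le (by norm_num) ham
  have hma : m < 2 ^ (a + 1) := Nat.lt_pow_succ_log_self (by norm_num) m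
  have hab : a < 2 ^ (b + 1) := Nat.lt_pow_succ_log_self (by norm_num) a
  have hlm : lev c m = lev c a + 1 := lev_big (by omega)
  have hla : lev c a = lev c b + 1 := lev_big (by omega)
  -- `n * (a + 1) ≤ 2 ^ (b + (n + 1))`
  have hnn : n < 2 ^ n := Nat.lt_two_pow_self
  have hna : n * (a + 1) ≤ 2 ^ (b + (n + 1)) := by
    calc n * (a + 1) ≤ 2 ^ n * 2 ^ (b + 1) := Nat.mul_le_mul hnn.le hab
      _ = 2 ^ (b + (n + 1)) := by rw [← pow_add]; ring_nf
  have hlna : lev c (n * (a + 1)) ≤ lev c a := by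
    calc lev c (n * (a + 1)) ≤ lev c (2 ^ (b + (n + 1))) := lev_mono c _ _ hna
      _ = lev c (b + (n + 1)) + 1 := lev_two_pow (by omega)
      _ = lev c a := by rw [h, hla]
  constructor
  · apply le_antisymm
    · -- `n ^ m ≤ 2 ^ (n * m)` and `n * m ≤ 2 ^ (n * (a + 1))`
      have h1 : n ^ m ≤ 2 ^ (n * m) := by
        calc n ^ m ≤ (2 ^ n) ^ m := Nat.pow_le_pow_left hnn.le m
          _ = 2 ^ (n * m) := by rw [← pow_mul]
      have h2 : n * m ≤ 2 ^ (n * (a + 1)) := by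
        calc n * m ≤ 2 ^ n * 2 ^ (a + 1) := Nat.mul_le_mul hnn.le hma.le
          _ = 2 ^ (n + (a + 1)) := by rw [← pow_add]
          _ ≤ 2 ^ (n * (a + 1)) := by
            apply Nat.pow_le_pow_right (by norm_num)
            nlinarith
      calc lev c (n ^ m) ≤ lev c (2 ^ (n * m)) := lev_mono c _ _ h1
        _ = lev c (n * m) + 1 := lev_two_pow (by nlinarith)
        _ ≤ lev c (2 ^ (n * (a + 1))) + 1 := by
          have := lev_mono c _ _ h2
          omega
        _ = lev c (n * (a + 1)) + 1 + 1 := by rw [lev_two_pow (by nlinarith)]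
        _ ≤ lev c m + 1 := by omega
    · calc lev c m + 1 = lev c (2 ^ m) := (lev_two_pow (by omega)).symm
        _ ≤ lev c (n ^ m) := lev_mono c _ _ (Nat.pow_le_pow_left hn m)
  · apply le_antisymm
    · calc lev c (m ^ n) ≤ lev c ((2 ^ (a + 1)) ^ n) :=
            lev_mono c _ _ (Nat.pow_le_pow_left hma.le n)
        _ = lev c (2 ^ (n * (a + 1))) := by rw [← pow_mul, mul_comm]
        _ = lev c (n * (a + 1)) + 1 := lev_two_pow (by nlinarith)
        _ ≤ lev c m := by omega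
    · exact lev_mono c _ _ (Nat.le_self_pow (by omega) m)

/-- The set of `m` for which level function number `c` separates `n ^ m` from `m ^ n`. -/
def Good (c : ℕ) (n : ℕ+) : Set ℕ+ :=
  {m | lev c ((n : ℕ) ^ (m : ℕ)) = lev c m + 1 ∧ lev c ((m : ℕ) ^ (n : ℕ)) = lev c m}

lemma good_cover {n : ℕ+} (hn : 2 ≤ (n : ℕ)) :
    ∃ K : ℕ, ∀ m : ℕ+, K ≤ (m : ℕ) → m ∈ Good 1 n ∨ m ∈ Good 2 n := by
  refine ⟨2 ^ 2 ^ ((n : ℕ) + 1), fun m hm => ?_⟩
  have h1 : 2 ^ ((n : ℕ) + 1) ≤ Nat.log 2 m := Nat.le_log_of_pow_le (by norm_num) hm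
  have h2 : (n : ℕ) + 1 ≤ Nat.log 2 (Nat.log 2 m) := Nat.le_log_of_pow_le (by norm_num) h1
  have hm2 : 2 ^ 2 ^ (2 + 1) ≤ (m : ℕ) := by
    refine le_trans ?_ hm
    apply Nat.pow_le_pow_right (by norm_num)
    apply Nat.pow_le_pow_right (by norm_num)
    omega
  have hm1 : 2 ^ 2 ^ (1 + 1) ≤ (m : ℕ) := le_trans (by norm_num) hm2
  rcases lev_add (N := (n : ℕ) + 1) (by omega) h2 with h | h
  · exact Or.inl (lev_pows (by norm_num) hn hm1 h)
  · exact Or.inr (lev_pows (by norm_num) hn hm2 h)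

lemma finite_notMem {p : Ultrafilter ℕ+} (hp : Nonprincipal p) (K : ℕ) :
    {m : ℕ+ | K ≤ (m : ℕ)} ∈ p := by
  by_contra h
  have h1 : {m : ℕ+ | K ≤ (m : ℕ)}ᶜ ∈ p := Ultrafilter.compl_mem_iff_notMem.2 h
  have hfin : ({m : ℕ+ | K ≤ (m : ℕ)}ᶜ).Finite := by
    refine Set.Finite.subset (Set.finite_Iic (Nat.succPNat K)) ?_
    intro m hm
    have hm' : ¬ (K ≤ (m : ℕ)) := hm
    rw [Set.mem_Iic, ← PNat.coe_le_coe, Nat.succPNat_coe]
    omega
  obtain ⟨x, _, hx⟩ := Ultrafilter.eq_pure_of_finite_mem hfin h1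
  exact hp x hx

/-- The 4-colouring: parities of the two levels. -/
def colour (m : ℕ+) : Fin 2 × Fin 2 :=
  (⟨lev 1 m % 2, Nat.mod_lt _ (by norm_num)⟩, ⟨lev 2 m % 2, Nat.mod_lt _ (by norm_num)⟩)

/-- The basic separation step. -/
lemma separate {p q : Ultrafilter ℕ+} (c : ℕ) (h : {n : ℕ+ | Good c n ∈ q} ∈ p) :
    ∃ ε : ℕ, {x : ℕ+ | lev c x % 2 = ε} ∈ E₂ p q ∧ {x : ℕ+ | lev c x % 2 = ε} ∉ E₁ p q := by
  obtain ⟨ε, hε⟩ : ∃ ε : ℕ, {m : ℕ+ | lev c m % 2 = ε} ∈ q := by
    by_cases h0 : {m : ℕ+ | lev c m % 2 = 0} ∈ q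
    · exact ⟨0, h0⟩
    · refine ⟨1, ?_⟩
      have h1 : {m : ℕ+ | lev c m % 2 = 0}ᶜ ∈ q := Ultrafilter.compl_mem_iff_notMem.2 h0
      refine Filter.mem_of_superset h1 ?_
      intro m hm
      have hm' : ¬ (lev c m % 2 = 0) := hm
      change lev c m % 2 = 1
      omega
  refine ⟨ε, ?_, ?_⟩
  · rw [mem_E₂]
    refine Filter.mem_of_superset h ?_
    intro n hn
    refine Filter.mem_of_superset (Filter.inter_mem hn hε) ?_
    rintro m ⟨hm, hm'⟩
    change lev c (((m ^ (n : ℕ) : ℕ+) : ℕ)) % 2 = ε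
    rw [PNat.pow_coe, hm.2]
    exact hm'
  · rw [mem_E₁]
    intro hcon
    obtain ⟨n, hn, hn'⟩ := Ultrafilter.nonempty_of_mem (Filter.inter_mem h hcon)
    obtain ⟨m, ⟨hm, hm'⟩, hm''⟩ :=
      Ultrafilter.nonempty_of_mem (Filter.inter_mem (Filter.inter_mem hn hε) hn')
    have e1 : lev c (((n ^ (m : ℕ) : ℕ+) : ℕ)) % 2 = ε := hm''
    rw [PNat.pow_coe, hm.1] at e1
    have e2 : lev c m % 2 = ε := hm'
    omega

/-- For all nonprincipal ultrafilters `p, q` on `ℕ = {1, 2, 3, …}` one has `E₁(p,q) ≠ E₂(p,q)`;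
moreover a single partition of `ℕ` into four cells separates them: the cell which belongs to
`E₁(p,q)` is always different from the cell which belongs to `E₂(p,q)`. -/
theorem result : ∃ χ : ℕ+ → Fin 2 × Fin 2, ∀ p q : Ultrafilter ℕ+,
    Nonprincipal p → Nonprincipal q →
      E₁ p q ≠ E₂ p q ∧ (E₁ p q).map χ ≠ (E₂ p q).map χ := by
  refine ⟨colour, fun p q hp hq => ?_⟩
  have key : (E₁ p q).map colour ≠ (E₂ p q).map colour := by
    have hcov : {n : ℕ+ | Good 1 n ∈ q} ∪ {n : ℕ+ | Good 2 n ∈ q} ∈ p := by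
      refine Filter.mem_of_superset (finite_notMem hp 2) ?_
      intro n hn
      obtain ⟨K, hK⟩ := good_cover (n := n) hn
      have h1 : Good 1 n ∪ Good 2 n ∈ q :=
        Filter.mem_of_superset (finite_notMem hq K) fun m hm => hK m hm
      exact Ultrafilter.union_mem_iff.1 h1
    rcases Ultrafilter.union_mem_iff.1 hcov with h | h
    · obtain ⟨ε, h2, h1⟩ := separate 1 h
      intro heq
      apply h1
      have h3 : {y : Fin 2 × Fin 2 | (y.1 : ℕ) = ε} ∈ (E₂ p q).map colour := h2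
      rw [← heq] at h3
      exact h3
    · obtain ⟨ε, h2, h1⟩ := separate 2 h
      intro heq
      apply h1
      have h3 : {y : Fin 2 × Fin 2 | (y.2 : ℕ) = ε} ∈ (E₂ p q).map colour := h2
      rw [← heq] at h3
      exact h3
  exact ⟨fun h => key (by rw [h]), key⟩

end Pool.Agent.Results.MP_846ee0_co.NoCoincidence
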